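import Pool.Agent.ASO.StmtsH

/-!
# Squad ASO, row HOMR: the residue of the central character at `f_c`
-/

open scoped BigOperators

noncomputable section

namespace Pool.Agent.PP.SO.H63

open Pool.Agent.Helper51_AWC Pool.Agent.Helper79_WRA Pool.Agent.PP Pool.Agent.PP.KF
open Pool.Agent.PP.K9 Pool.Agent.PP.K9.H97 Pool.Agent.PP.H75 Pool.Agent.PP.T3

attribute [local instance] Ideal.Quotient.field

theorem homr (hL : HLnkStmt) (hI : HIxeStmt) (hO : K9.OmgStmt) (hR : T3.RsvStmt) : HOmrStmt := by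
  intro ℓ _ M _ hM V₀ _ _ E₀ G _ _ B hB c χ hχ
  obtain ⟨h1, h2, h3⟩ := hL ℓ M hM V₀ E₀ G B hB c
  obtain ⟨-, -, -, h4⟩ := hI ℓ M hM V₀ E₀ G B hB
  obtain ⟨h5, -⟩ := h4 c
  have hid : IsIdem (fun t : Cu (B.i c) => B.b (Subgroup.zpowers c) t) := h2.blk.2.1
  obtain ⟨-, h6⟩ := hO M G (B.i c) (fun t : Cu (B.i c) => B.b (Subgroup.zpowers c) t) hid (B.i c)
    (Subgroup.mem_zpowers _)
  obtain ⟨h7, h8⟩ := h6 χ hχ.1
  have h9 := hR ℓ M hM G B.e B.i.range B.g hB.ld (B.i c) ⟨c, rfl⟩ _ h2 χ hχ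
  have h10 : cv (fc B ⊥ c) χ = Nat.card G *
      gbv (Cu (B.i c)) (B.i c) (eh M (fun t : Cu (B.i c) => B.b (Subgroup.zpowers c) t)) χ /
        (Nat.card (Cu (B.i c)) * χ 1) := by
    rw [h3 χ hχ.1, ← h1]
    rfl
  rw [h10]
  refine ⟨h7, ?_⟩
  rw [h8, h9, h5]

end Pool.Agent.PP.SO.H63
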